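import Pool.Agent.Y247.AA.Map

/-!
# Smooth Schoenflies for 3-spheres with an asymptotically affine extension to the ball

Let `H : ℝ⁴ → ℝ⁴` be a local diffeomorphism at the points of the unit sphere and injective on the
unit sphere, so that `H(S³)` is a smooth 3-sphere in `ℝ⁴`. If `H` is asymptotically affine at every
point of the open unit ball (on small balls it differs from an affine map by an error which is
small compared with the size of the smallest singular value), then the sphere is unknotted: some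
diffeomorphism of `ℝ⁴`, a linear isometry outside a compact set, agrees with `H` on the unit sphere.
The map `H` is not assumed to be injective or continuous in the ball.
-/

set_option autoImplicit false

open Set Filter Topology Metric Function
open scoped ContDiff

namespace Pool.Agent.Results.MP_6c077c_gt.AsymptoticallyAffineExtension

/-- `ℝ⁴` -/
abbrev R4 : Type := EuclideanSpace ℝ (Fin 4)

/-- `H` is a local diffeomorphism at `x`: smooth near `x`, with bijective derivative at `x` -/
def LocDiff (H : R4 → R4) (x : R4) : Prop :=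
  (∀ᶠ y in 𝓝 x, ContDiffAt ℝ ∞ H y) ∧ Bijective (fderiv ℝ H x)

/-- `H` is asymptotically affine at `x`: for every `δ`, on every ball of small radius `r` with
centre `p` near `x` it differs from an affine map by at most `δ m r`, where `m` is a lower bound of
the linear part `L` of the affine map -/
def AsymptoticallyAffineAt (H : R4 → R4) (x : R4) : Prop :=
  ∀ δ : ℝ, 0 < δ → ∃ ρ : ℝ, 0 < ρ ∧ ∀ (p : R4) (r : ℝ), ‖p - x‖ < ρ → 0 < r → r < ρ →
    ∃ (L : R4 →L[ℝ] R4) (m : ℝ), 0 < m ∧ (∀ v, m * ‖v‖ ≤ ‖L v‖) ∧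
      ∀ q, ‖q - p‖ ≤ r → ‖H q - H p - L (q - p)‖ ≤ δ * m * r

/-- `G` is a diffeomorphism of `ℝ⁴`, equal to a linear isometry outside a compact set (so it extends
to a diffeomorphism of `S⁴`) -/
def StandardAtInfinity (G : R4 → R4) : Prop :=
  ContDiff ℝ ∞ G ∧ (∃ K : R4 → R4, ContDiff ℝ ∞ K ∧ LeftInverse K G ∧ RightInverse K G) ∧
    ∃ (O : R4 ≃ₗᵢ[ℝ] R4) (R : ℝ), ∀ x, R ≤ ‖x‖ → G x = O x

theorem result (H : R4 → R4) (hs : ∀ x, ‖x‖ = 1 → LocDiff H x) (hi : InjOn H (sphere 0 1))
    (h : ∀ x, ‖x‖ < 1 → AsymptoticallyAffineAt H x) :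
    ∃ G : R4 → R4, StandardAtInfinity G ∧ ∀ x, ‖x‖ = 1 → G x = H x := by
  obtain ⟨G, O, R, hb, hL, h1, h3⟩ := Pool.Agent.Y247.AA.sphere_ext (n := 4) (by norm_num) H
    (fun x hx => Pool.Agent.Y522.LD_of_bij (hs x hx).1 (hs x hx).2) hi
    (fun x hx δ hδ => by
      obtain ⟨ρ, hρ, h4⟩ := h x hx δ hδ
      exact ⟨ρ, hρ, fun p hp r hr0 hr1 => h4 p r hp hr0 hr1⟩)
  obtain ⟨hG, hK⟩ := Pool.Agent.Y522.smooth_inverse hb hL
  exact ⟨G, ⟨hG, hK, O, R, h3⟩, h1⟩

end Pool.Agent.Results.MP_6c077c_gt.AsymptoticallyAffineExtension
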