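import Pool.Agent.Y522.Sch

/-!
# Smooth Schoenflies for 3-spheres bounding a directionally monotone ball

A smooth 3-sphere in `ℝ⁴` (so in `S⁴`) is given together with a parametrization `H` of the
topological ball which it bounds: `H` is continuous and injective on a neighbourhood of the closed
unit ball, and a local diffeomorphism near the unit sphere. If `H` is directionally monotone at the
interior points where it is not a local diffeomorphism, then the sphere is unknotted: some
diffeomorphism of `ℝ⁴`, a linear isometry outside a compact set, agrees with `H` on the unit sphere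
and maps the closed unit ball onto the ball bounded by the sphere.
-/

set_option autoImplicit false

open Set Filter Topology Metric Function
open scoped ContDiff

namespace Pool.Agent.Results.MP_6c077c_gt.MonotoneBall

/-- `ℝ⁴` -/
abbrev R4 : Type := EuclideanSpace ℝ (Fin 4)

/-- `H` is a local diffeomorphism at `x`: smooth near `x`, with bijective derivative at `x` -/
def LocDiff (H : R4 → R4) (x : R4) : Prop :=
  (∀ᶠ y in 𝓝 x, ContDiffAt ℝ ∞ H y) ∧ Bijective (fderiv ℝ H x)

/-- `H` is directionally monotone at `x`: for every direction `v` there is a linear functional `ℓ`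
such that `ℓ ∘ H` is strictly increasing near `x` in all directions near `v` -/
def DirMonotone (H : R4 → R4) (x : R4) : Prop :=
  ∀ v : R4, v ≠ 0 → ∃ (r : ℝ) (ℓ : R4 →L[ℝ] ℝ), 0 < r ∧
    ∀ p q : R4, ‖p - x‖ ≤ r → ‖q - x‖ ≤ r → ∀ t : ℝ, 0 < t → ‖q - p - t • v‖ ≤ r * t →
      ℓ (H p) < ℓ (H q)

/-- `G` is a diffeomorphism of `ℝ⁴`, equal to a linear isometry outside a compact set (so it extends
to a diffeomorphism of `S⁴`) -/
def StandardAtInfinity (G : R4 → R4) : Prop :=
  ContDiff ℝ ∞ G ∧ (∃ K : R4 → R4, ContDiff ℝ ∞ K ∧ LeftInverse K G ∧ RightInverse K G) ∧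
    ∃ (O : R4 ≃ₗᵢ[ℝ] R4) (R : ℝ), ∀ x, R ≤ ‖x‖ → G x = O x

theorem result (H : R4 → R4) (δ : ℝ) (hδ : 0 < δ) (hc : ContinuousOn H (ball 0 (1 + δ)))
    (hi : InjOn H (ball 0 (1 + δ))) (hs : ∀ x, 1 ≤ ‖x‖ → ‖x‖ < 1 + δ → LocDiff H x)
    (h : ∀ x, ‖x‖ < 1 → LocDiff H x ∨ DirMonotone H x) :
    ∃ G : R4 → R4, StandardAtInfinity G ∧ (∀ x, ‖x‖ = 1 → G x = H x) ∧
      G '' closedBall 0 1 = H '' closedBall 0 1 := by
  obtain ⟨G, O, R, hb, hL, h1, h2, h3⟩ := Pool.Agent.Y522.stSch2 4 H δ hδ hc hi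
    (fun x hx hx' => Pool.Agent.Y522.LD_of_bij (hs x hx hx').1 (hs x hx hx').2)
    (fun x hx hn => by
      rcases h x hx with h' | h'
      · exact absurd (Pool.Agent.Y522.LD_of_bij h'.1 h'.2) hn
      · exact h')
  obtain ⟨hG, hK⟩ := Pool.Agent.Y522.smooth_inverse hb hL
  exact ⟨G, ⟨hG, hK, O, R, h3⟩, h1, h2⟩

end Pool.Agent.Results.MP_6c077c_gt.MonotoneBall
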